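import Mathlib
import Pool.Agent.Helper59.PQ.MainQ
import Pool.Agent.Helper59.PP.Unfold
import Pool.Agent.Helper59.RG.SumR

/-!
# Poissonian powers of random series

Let `X = ∑ ξ_k r^k / (k!)^κ` with independent real random variables `ξ_k` of polynomial size, such
that for some `x > 0`, `δ > 0` two independent copies of `ξ_k` differ by nearly `x` with
probability at least `k^(-1+δ)` (for all large `k`).  For every real polynomial `P ≠ 0`, all
integers `a 0 < a 1 < ...` and all reals `c i`, almost surely, if `X > 1`, the sequence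
`u i = P(X) X^(a i) + c i` is Poissonian modulo one: seen from a random point of the circle and
rescaled by `n`, the points `u i`, `i < n`, converge to a Poisson process; hence the gaps are
exponentially distributed.
-/

namespace Pool.Agent.Results.MP_9056e9_nt.PoissonianPowers

open Finset MeasureTheory ProbabilityTheory Polynomial Filter
open scoped Topology

theorem result (r κ : ℝ) (hr : 0 < r) (hκ : 0 ≤ κ) (hrκ : 0 < κ ∨ r < 1)
    {Ω : Type*} [MeasurableSpace Ω] (μ : Measure Ω) [IsProbabilityMeasure μ]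
    (ξ : ℕ → Ω → ℝ) (hξ : ∀ k, Measurable (ξ k)) (hind : iIndepFun ξ μ)
    (C : ℝ) (A : ℕ) (hB : ∀ k : ℕ, ∀ᵐ ω ∂μ, |ξ k ω| ≤ C * ((k : ℝ) + 1) ^ A)
    (x δ : ℝ) (hx : 0 < x) (hδ : 0 < δ)
    (hsp : ∀ η : ℝ, 0 < η → ∀ᶠ k : ℕ in atTop,
      (k : ℝ) ^ (-1 + δ) ≤ (μ.prod μ).real {p : Ω × Ω | |ξ k p.1 - ξ k p.2 - x| ≤ η})
    (P : ℝ[X]) (hP : P ≠ 0) (a : ℕ → ℕ) (ha : StrictMono a) (c : ℕ → ℝ) :
    ∀ᵐ ω ∂μ, (Summable fun k : ℕ => ξ k ω * (r ^ k / (k.factorial : ℝ) ^ κ)) ∧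
      ∀ (z : ℝ) (u : ℕ → ℝ), z = ∑' k : ℕ, ξ k ω * (r ^ k / (k.factorial : ℝ) ^ κ) → 1 < z →
      (∀ i, u i = P.eval z * z ^ a i + c i) →
      (∀ (p : ℕ) (α β : Fin p → ℝ), (∀ l, α l < β l) →
        (∀ l l', l ≠ l' → β l < α l' ∨ β l' < α l) → ∀ j : ℕ, Tendsto (fun n : ℕ =>
          volume.real {t : ℝ | t ∈ Set.Ico (0 : ℝ) 1 ∧ {i : ℕ | i < n ∧ ∃ l : Fin p, ∃ m : ℤ,
            α l ≤ n * (u i - t + m) ∧ n * (u i - t + m) < β l}.ncard = j}) atTop
          (𝓝 (Real.exp (-∑ l, (β l - α l)) * (∑ l, (β l - α l)) ^ j / j.factorial))) ∧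
      (∀ s : ℝ, 0 ≤ s → Tendsto (fun n : ℕ =>
        ({i : ℕ | i < n ∧ ∀ l < n, l ≠ i → s < n * Int.fract (u l - u i)}.ncard : ℝ) / n) atTop
          (𝓝 (Real.exp (-s)))) := by
  have h := Pool.Agent.Helper59.PQ.mainQ r κ hr hκ hrκ C A x δ hx hδ μ ξ hξ hind hB
    (fun η hη => Filter.eventually_atTop.mp (hsp η hη)) P hP a ha c
  have hall : ∀ᵐ ω ∂μ, ∀ k : ℕ, |ξ k ω| ≤ C * ((k : ℝ) + 1) ^ A := MeasureTheory.ae_all_iff.2 hB
  filter_upwards [h, hall] with ω hω hb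
  refine ⟨Pool.Agent.Helper59.RG.sumR r κ hr hκ hrκ C A (fun k => ξ k ω) hb, ?_⟩
  intro z u hz h1 hu
  obtain rfl : u = fun i => P.eval z * z ^ a i + c i := funext hu
  subst hz
  obtain ⟨hp, hg⟩ := hω h1
  refine ⟨?_, ?_⟩
  · intro p α β hαβ hsep j
    refine (hp p α β hαβ hsep j).congr fun n => ?_
    congr 1
    ext t
    rw [Set.mem_setOf_eq, Set.mem_setOf_eq, Pool.Agent.Helper59.PP.cnt_ncard]
  · intro s hs
    refine (hg s hs).congr fun n => ?_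
    rw [Pool.Agent.Helper59.PP.gap_ncard]

end Pool.Agent.Results.MP_9056e9_nt.PoissonianPowers
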