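import Mathlib
import Pool.Agent.Helper59.RG.MainR
import Pool.Agent.Helper59.RG.SumR

/-!
# Powers of random series, down to dimension zero and through e and pi

Let `X = ∑ ξ_k r^k / (k!)^κ` with independent real random variables `ξ_k` of polynomial size, such
that for some `x > 0`, `δ > 0` two independent copies of `ξ_k` differ by nearly `x` with
probability at least `k^(-1+δ)` (for all large `k`).  For every real polynomial `P`, all integers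
`a 0 < a 1 < ...` and all reals `c i`, almost surely, if `X > 1` and `P(X) ≠ 0`, the sequence
`P(X) X^(a i) + c i` is equidistributed modulo one with discrepancy `O(n^(-1/2+ε))`.
-/

namespace Pool.Agent.Results.MP_9056e9_nt.RandomSeries

open Finset MeasureTheory ProbabilityTheory Polynomial

theorem result (r κ : ℝ) (hr : 0 < r) (hκ : 0 ≤ κ) (hrκ : 0 < κ ∨ r < 1)
    {Ω : Type*} [MeasurableSpace Ω] (μ : Measure Ω) [IsProbabilityMeasure μ]
    (ξ : ℕ → Ω → ℝ) (hξ : ∀ k, Measurable (ξ k)) (hind : iIndepFun ξ μ)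
    (C : ℝ) (A : ℕ) (hB : ∀ k : ℕ, ∀ᵐ ω ∂μ, |ξ k ω| ≤ C * ((k : ℝ) + 1) ^ A)
    (x δ : ℝ) (hx : 0 < x) (hδ : 0 < δ)
    (hsp : ∀ η : ℝ, 0 < η → ∀ᶠ k : ℕ in Filter.atTop,
      (k : ℝ) ^ (-1 + δ) ≤ (μ.prod μ).real {p : Ω × Ω | |ξ k p.1 - ξ k p.2 - x| ≤ η})
    (P : ℝ[X]) (a : ℕ → ℕ) (ha : StrictMono a) (c : ℕ → ℝ) :
    ∀ᵐ ω ∂μ, (Summable fun k : ℕ => ξ k ω * (r ^ k / (k.factorial : ℝ) ^ κ)) ∧
      ∀ z : ℝ, z = ∑' k : ℕ, ξ k ω * (r ^ k / (k.factorial : ℝ) ^ κ) →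
      1 < z → P.eval z ≠ 0 → ∀ ε : ℝ, 0 < ε → ∃ K : ℝ, ∀ n : ℕ, 1 ≤ n → ∀ α β : ℝ,
        0 ≤ α → α < β → β ≤ 1 →
        |(((range n).filter (fun i => α ≤ Int.fract (P.eval z * z ^ a i + c i) ∧
            Int.fract (P.eval z * z ^ a i + c i) < β)).card : ℝ) - (β - α) * n| ≤
          K * (n : ℝ) ^ (1 / 2 + ε) := by
  have h := Pool.Agent.Helper59.RG.mainR r κ hr hκ hrκ C A x δ hx hδ μ ξ hξ hind hB
    (fun η hη => Filter.eventually_atTop.mp (hsp η hη)) P a ha c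
  have hall : ∀ᵐ ω ∂μ, ∀ k : ℕ, |ξ k ω| ≤ C * ((k : ℝ) + 1) ^ A := MeasureTheory.ae_all_iff.2 hB
  filter_upwards [h, hall] with ω hω hb
  refine ⟨?_, ?_⟩
  · exact Pool.Agent.Helper59.RG.sumR r κ hr hκ hrκ C A (fun k => ξ k ω) hb
  · intro z hz h1 hP
    subst hz
    exact hω h1 hP

end Pool.Agent.Results.MP_9056e9_nt.RandomSeries
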